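import Pool.Agent.L0h14.OE.Stm
import Pool.Agent.L0h14.OR.Num

/-!
# Module CLASS: indecomposable direct summands of the motive of a curve
-/

universe u v

open CategoryTheory

set_option autoImplicit false

namespace Pool.Agent.L0h3.OE

open Pool.Agent.N174.OC Pool.Agent.L0h14.ORN Pool.Agent.Y107 Pool.Agent.L0h14.OE

variable {𝒱 : Type u} [Category.{v} 𝒱] [Preadditive 𝒱] [Linear ℚ 𝒱]

/-- a linear form which vanishes on the homogeneous correspondences is zero -/
lemma hom_ind (T : TraceTheory 𝒱) {X Y : 𝒱} {P : (X ⟶ Y) → Prop} (f : X ⟶ Y)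
    (h : ∀ i, ∀ g ∈ T.gr X Y i, P g) (h0 : P 0) (hadd : ∀ g g', P g → P g' → P (g + g')) : P f :=
  Submodule.iSup_induction (T.gr X Y) (motive := P) (hom_mem T.toChowTheory f) (fun i g hg => h i g hg) h0
    (fun g g' => hadd g g')

lemma tN_nc (T : TraceTheory 𝒱) {X Y Z : 𝒱} (x : T.NH X Y) (y : T.NH Y Z) :
    T.tN (T.nc x y) = T.nc (T.tN y) (T.tN x) := by
  obtain ⟨f, rfl⟩ := T.cl_surj x
  obtain ⟨g, rfl⟩ := T.cl_surj y
  rw [T.nc_cl, T.tN_cl, T.tN_cl, T.tN_cl, T.nc_cl, T.tp_comp]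

lemma tN_tN (T : TraceTheory 𝒱) {X Y : 𝒱} (x : T.NH X Y) : T.tN (T.tN x) = x := by
  obtain ⟨f, rfl⟩ := T.cl_surj x
  rw [T.tN_cl, T.tN_cl, T.tp_tp]

lemma tN_mem0 (T : TraceTheory 𝒱) {C : 𝒱} {x : T.NH C C} (hx : x ∈ T.gN C C 0) : T.tN x ∈ T.gN C C 0 := by
  obtain ⟨f, hf, rfl⟩ := hx
  refine ⟨T.tp f, ?_, rfl⟩
  have h := T.tp_mem hf
  have e : (T.dim C : ℤ) + 0 - T.dim C = 0 := by ring
  rwa [e] at h

/-- non-zero idempotents of `p E p` are equal to `p` -/
lemma idem_eq (T : TraceTheory 𝒱) {C : 𝒱} {p : T.NH C C} (hp : T.DivN p) {e : T.NH C C} (he : e ∈ T.gN C C 0)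
    (h1 : T.nc p e = e) (h2 : T.nc e p = e) (h3 : T.nc e e = e) (h4 : e ≠ 0) : e = p := by
  obtain ⟨y, hy, hy1, hy2, hy3, hy4⟩ := hp.2.2.2 e he h1 h2 h4
  calc e = T.nc e p := h2.symm
    _ = T.nc e (T.nc e y) := by rw [hy3]
    _ = T.nc e y := by rw [← T.nc_assoc, h3]
    _ = p := hy3

/-- the core of the case of Tate twists -/
lemma core (T : TraceTheory 𝒱) {C Q : 𝒱} {p : T.NH C C} (hp : T.DivN p) {s : ℤ} {α : T.NH C Q} {β : T.NH Q C}
    (hα : α ∈ T.gN C Q s) (hβ : β ∈ T.gN Q C (-s)) (h1 : T.nc p α = α) (h2 : T.nc β p = β)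
    (h3 : T.nc β α = T.one Q) (h4 : β ≠ 0) : T.Cong p (T.one Q) s := by
  have he : T.nc α β = p := by
    refine idem_eq T hp ?_ ?_ ?_ ?_ ?_
    · have := T.nc_mem hα hβ
      rwa [add_neg_cancel] at this
    · rw [← T.nc_assoc, h1]
    · rw [T.nc_assoc, h2]
    · rw [T.nc_assoc, ← T.nc_assoc β, h3, T.one_nc]
    · intro h
      apply h4
      calc β = T.nc (T.nc β α) β := by rw [h3, T.one_nc]
        _ = T.nc β (T.nc α β) := T.nc_assoc _ _ _
        _ = 0 := by rw [h, map_zero]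
  exact ⟨α, hα, β, hβ, h1, T.nc_one _, T.one_nc _, h2, he, h3⟩

theorem t_Class : S_Class.{u, v} := by
  intro 𝒱 _ _ _ T C hC p hp
  obtain ⟨a, ha, hap⟩ := hp.1
  have hpp : T.nc p p = p := hp.2.1
  have ha0 : a ∉ T.triv C C := by
    intro h
    exact hp.2.2.1 (by rw [← hap]; exact (T.cl_eq_zero).2 h)
  by_cases hxy : ∃ (x : T.pt ⟶ C) (y : C ⟶ T.pt), T.tr T.pt (x ≫ a ≫ y) ≠ 0
  · left
    -- homogeneous ones
    have hom : ∃ (j k : ℤ) (x : T.pt ⟶ C) (y : C ⟶ T.pt), x ∈ T.gr T.pt C j ∧ y ∈ T.gr C T.pt k ∧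
        T.tr T.pt (x ≫ a ≫ y) ≠ 0 := by
      by_contra hcon
      push Not at hcon
      obtain ⟨x, y, hne⟩ := hxy
      apply hne
      refine hom_ind T.toTraceTheory (P := fun x => T.tr T.pt (x ≫ a ≫ y) = 0) x (fun j x hx => ?_) ?_ ?_
      · refine hom_ind T.toTraceTheory (P := fun y => T.tr T.pt (x ≫ a ≫ y) = 0) y (fun k y hy => ?_) ?_ ?_
        · exact hcon j k x y hx hy
        · simp
        · intro g g' hg hg'
          rw [Preadditive.comp_add, Preadditive.comp_add, map_add, hg, hg', add_zero]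
      · simp
      · intro g g' hg hg'
        rw [Preadditive.add_comp, map_add, hg, hg', add_zero]
    obtain ⟨j, k, x, y, hx, hy, hne⟩ := hom
    have hmem : x ≫ a ≫ y ∈ T.gr T.pt T.pt (j + (0 + k)) := T.comp_mem hx (T.comp_mem ha hy)
    have hk : k = -j := by
      by_contra hk
      apply hne
      have hz : x ≫ a ≫ y = 0 := by
        rcases lt_or_gt_of_ne (show j + (0 + k) ≠ 0 by omega) with h | h
        · rw [T.negative T.pt T.pt _ (by rw [T.dim_pt]; simpa using h)] at hmem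
          exact (Submodule.mem_bot ℚ).1 hmem
        · rw [T.top T.pt T.pt _ (by rw [T.dim_pt]; simpa using h)] at hmem
          exact (Submodule.mem_bot ℚ).1 hmem
      rw [hz, map_zero]
    subst hk
    have e0 : j + (0 + -j) = 0 := by ring
    rw [e0] at hmem
    obtain ⟨c, hc⟩ := T.pt_end _ hmem
    have hc0 : c ≠ 0 := by
      rintro rfl
      apply hne
      rw [hc, zero_smul, map_zero]
    have hval : T.nc (T.cl x) (T.nc p (T.cl y)) = c • T.one T.pt := by
      rw [← hap, T.nc_cl, T.nc_cl, hc, map_smul]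
      rfl
    refine ⟨-j, core T.toTraceTheory hp (α := c⁻¹ • T.nc p (T.cl y)) (β := T.nc (T.cl x) p) ?_ ?_ ?_ ?_ ?_ ?_⟩
    · refine Submodule.smul_mem _ _ ?_
      have := T.nc_mem hp.1 ⟨y, hy, rfl⟩
      rwa [zero_add] at this
    · have h1 : T.cl x ∈ T.gN T.pt C j := ⟨x, hx, rfl⟩
      have := T.nc_mem h1 hp.1
      rwa [add_zero, ← neg_neg j] at this
    · rw [map_smul, ← T.nc_assoc, hpp]
    · rw [T.nc_assoc, hpp]
    · rw [map_smul, T.nc_assoc, ← T.nc_assoc p, hpp, hval, smul_smul, inv_mul_cancel₀ hc0, one_smul]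
    · intro h
      apply hne
      have h0 : T.nc (T.cl x) (T.nc p (T.cl y)) = 0 := by
        rw [← T.nc_assoc, h, map_zero, LinearMap.zero_apply]
      rw [← hap, T.nc_cl, T.nc_cl, T.cl_eq_zero] at h0
      have h1 := h0 (𝟙 T.pt)
      rwa [Category.comp_id] at h1
  · push Not at hxy
    right
    have hd : T.dim C = 1 := by
      rcases Nat.lt_or_ge (T.dim C) 1 with h | h
      · exfalso
        obtain ⟨a', -, b', -, h1, -⟩ := T.pt_iso C (by omega)
        apply ha0
        intro z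
        have e : a ≫ z = (a ≫ z ≫ a') ≫ b' := by
          rw [Category.assoc, Category.assoc, h1, Category.comp_id]
        rw [e, T.tr_comm]
        exact hxy b' (z ≫ a')
      · omega
    refine ⟨hd, ?_⟩
    have hw : T.tr C (a ≫ T.tp a) ≠ 0 := by
      intro h
      apply ha0
      refine T.weil C hd a ha (fun x => ?_) (fun y => ?_) h
      · intro y
        rw [Category.assoc]
        exact hxy x y
      · intro b
        rw [T.tr_comm]
        exact hxy b y
    have hpt : T.nc (T.tN p) (T.tN p) = T.tN p := by rw [← tN_nc, hpp]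
    have htm : T.tN p ∈ T.gN C C 0 := tN_mem0 _ hp.1
    -- x = p p* p
    have hx0 : T.nc (T.nc p (T.tN p)) p ≠ 0 := by
      intro h
      apply hw
      rw [← hap, T.tN_cl, T.nc_cl, T.nc_cl, T.cl_eq_zero] at h
      have h1 := h (𝟙 C)
      rw [Category.comp_id, T.tr_comm, ← Category.assoc] at h1
      have h2 : a ≫ a - a ∈ T.triv C C := by
        rw [← hap, T.nc_cl, T.cl_eq] at hpp
        exact hpp
      have h3 := h2 (T.tp a)
      rw [Preadditive.sub_comp, map_sub, h1, zero_sub, neg_eq_zero] at h3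
      exact h3
    obtain ⟨y, hy, hy1, hy2, hy3, hy4⟩ := hp.2.2.2 (T.nc (T.nc p (T.tN p)) p)
      (by
        have := T.nc_mem (T.nc_mem hp.1 htm) hp.1
        simpa using this)
      (by rw [← T.nc_assoc, ← T.nc_assoc, hpp]) (by rw [T.nc_assoc, hpp]) hx0
    have hu : T.nc p (T.tN p) ∈ T.gN C C 0 := by
      have := T.nc_mem hp.1 htm
      simpa using this
    have hwm : T.nc (T.tN p) y ∈ T.gN C C 0 := by
      have := T.nc_mem htm hy
      simpa using this
    have huw : T.nc (T.nc p (T.tN p)) (T.nc (T.tN p) y) = p := by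
      calc T.nc (T.nc p (T.tN p)) (T.nc (T.tN p) y) = T.nc (T.nc p (T.tN p)) y := by
            rw [← T.nc_assoc, T.nc_assoc p, hpt]
        _ = T.nc (T.nc p (T.tN p)) (T.nc p y) := by rw [hy1]
        _ = T.nc (T.nc (T.nc p (T.tN p)) p) y := by rw [T.nc_assoc _ p y]
        _ = p := hy3
    have k1 : T.nc (T.tN p) (T.nc (T.tN p) y) = T.nc (T.tN p) y := by rw [← T.nc_assoc, hpt]
    have k2 : T.nc (T.nc (T.tN p) y) p = T.nc (T.tN p) y := by rw [T.nc_assoc, hy2]
    have k3 : T.nc p (T.nc p (T.tN p)) = T.nc p (T.tN p) := by rw [← T.nc_assoc, hpp]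
    have k4 : T.nc (T.nc p (T.tN p)) (T.tN p) = T.nc p (T.tN p) := by rw [T.nc_assoc, hpt]
    set uu := T.nc p (T.tN p) with huu
    set ww := T.nc (T.tN p) y with hww
    have hwu : T.nc ww uu = T.tN p := by
      have h := idem_eq T.toTraceTheory hp (e := T.tN (T.nc ww uu)) ?_ ?_ ?_ ?_ ?_
      · rw [← h, tN_tN]
      · refine tN_mem0 _ ?_
        have := T.nc_mem hwm hu
        simpa using this
      · have : T.nc p (T.tN (T.nc ww uu)) = T.tN (T.nc (T.nc ww uu) (T.tN p)) := by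
          rw [tN_nc T.toTraceTheory (T.nc ww uu), tN_tN]
        rw [this, T.nc_assoc, k4]
      · have : T.nc (T.tN (T.nc ww uu)) p = T.tN (T.nc (T.tN p) (T.nc ww uu)) := by
          rw [tN_nc T.toTraceTheory (T.tN p), tN_tN]
        rw [this, ← T.nc_assoc, k1]
      · rw [← tN_nc]
        congr 1
        rw [T.nc_assoc, ← T.nc_assoc uu, huw, ← T.nc_assoc, k2]
      · intro h
        have h0 : T.nc ww uu = 0 := by
          rw [← tN_tN T.toTraceTheory (T.nc ww uu), h, map_zero]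
        apply hp.2.2.1
        calc p = T.nc p p := hpp.symm
          _ = T.nc (T.nc uu ww) (T.nc uu ww) := by rw [huw]
          _ = T.nc uu (T.nc (T.nc ww uu) ww) := by simp only [T.nc_assoc]
          _ = 0 := by rw [h0, map_zero, LinearMap.zero_apply, map_zero]
    exact ⟨uu, hu, ww, by rw [neg_zero]; exact hwm, k3, k4, k1, k2, huw, hwu⟩

end Pool.Agent.L0h3.OE
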