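import Pool.Agent.L0h14.OE.Stm

/-!
# Module CONG
-/

universe u v

open CategoryTheory

set_option autoImplicit false

namespace Pool.Agent.L0h3.OE

open Pool.Agent.N174.OC Pool.Agent.L0h14.ORN Pool.Agent.Y107 Pool.Agent.L0h14.OE

theorem t_Cong : S_Cong.{u, v} := by
  intro 𝒱 _ _ _ T C C' X p q s hcong i
  obtain ⟨a, ha, b, hb, h1, h2, h3, h4, h5, h6⟩ := hcong
  unfold TraceTheory.D
  have hB : ∀ h ∈ T.FixN p X i, T.nc b h ∈ T.FixN q X (i - s) := by
    intro h hh
    rw [T.mem_FixN] at hh ⊢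
    refine ⟨?_, ?_⟩
    · have := T.nc_mem hb hh.1
      have e : -s + i = i - s := by ring
      rwa [e] at this
    · rw [← T.nc_assoc, h3]
  have hA : ∀ h ∈ T.FixN q X (i - s), T.nc a h ∈ T.FixN p X i := by
    intro h hh
    rw [T.mem_FixN] at hh ⊢
    refine ⟨?_, ?_⟩
    · have := T.nc_mem ha hh.1
      have e : s + (i - s) = i := by ring
      rwa [e] at this
    · rw [← T.nc_assoc, h1]
  refine LinearEquiv.finrank_eq (LinearEquiv.ofLinearMap ((T.nc b).restrict hB) ((T.nc a).restrict hA) ?_ ?_)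
  · refine LinearMap.ext fun x => Subtype.ext ?_
    change T.nc b (T.nc a x.1) = x.1
    rw [← T.nc_assoc, h6]
    exact ((T.mem_FixN).1 x.2).2
  · refine LinearMap.ext fun x => Subtype.ext ?_
    change T.nc a (T.nc b x.1) = x.1
    rw [← T.nc_assoc, h5]
    exact ((T.mem_FixN).1 x.2).2

end Pool.Agent.L0h3.OE
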