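import Pool.Agent.L0h14.OE.Stm

/-!
# Module NUM
-/

universe u v

open CategoryTheory

set_option autoImplicit false

namespace Pool.Agent.L0h3.OE

open Pool.Agent.N174.OC Pool.Agent.L0h14.ORN Pool.Agent.Y107 Pool.Agent.L0h14.OE

theorem t_Num (ks : S_KS.{u, v}) (nd : S_ND.{u, v}) (fd : S_Fd.{u, v}) (cnt : S_Cnt.{u, v}) (vt : S_ViaTw.{u, v}) :
    S_Num.{u, v} := by
  intro 𝒱 _ _ _ T m X Y hd hd2 hiso huv f hf g hg hfg hgf
  have hfg0 : f ≫ g - 𝟙 X ∈ T.gr X X 0 := by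
    refine sub_mem ?_ (T.id_mem X)
    have := T.comp_mem hf hg
    rwa [add_zero] at this
  have hgf0 : g ≫ f - 𝟙 Y ∈ T.gr Y Y 0 := by
    refine sub_mem ?_ (T.id_mem Y)
    have := T.comp_mem hg hf
    rwa [add_zero] at this
  obtain ⟨U, U', h1, h2⟩ := ks (𝒞 := TraceTheory.Tw T.toTraceTheory) (fd T.toTraceTheory).2
    (fun {A B} a => nd T.toTraceTheory a) (fun U => T.dim U.V ≤ 1) ⟨X, 0⟩ ⟨Y, 0⟩
    (show (⟨X, 0⟩ : TraceTheory.Tw T.toTraceTheory) ⟶ ⟨Y, 0⟩ from ⟨T.cl f, f, hf, rfl⟩)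
    (show (⟨Y, 0⟩ : TraceTheory.Tw T.toTraceTheory) ⟶ ⟨X, 0⟩ from ⟨T.cl g, g, hg, rfl⟩)
    (by
      have h := vt T.toTraceTheory X X (f ≫ g - 𝟙 X) hfg0 hfg
      convert h using 1
      refine Subtype.ext ?_
      change T.nc (T.cl f) (T.cl g) - T.one X = T.cl (f ≫ g - 𝟙 X)
      rw [T.nc_cl, map_sub]
      rfl)
    (by
      have h := vt T.toTraceTheory Y Y (g ≫ f - 𝟙 Y) hgf0 hgf
      convert h using 1
      refine Subtype.ext ?_
      change T.nc (T.cl g) (T.cl f) - T.one Y = T.cl (g ≫ f - 𝟙 Y)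
      rw [T.nc_cl, map_sub]
      rfl)
    (by
      rintro ⟨C, k⟩ hC p ⟨hp1, hp2, hp3⟩
      have hC' : T.dim C ≤ 1 := hC
      have ek : T.gN C C (k - k) = T.gN C C 0 := by rw [sub_self]
      have hp0 : p.1 ∈ T.gN C C 0 := (le_of_eq ek) p.2
      have hdiv : T.DivN p.1 := by
        refine ⟨hp0, congrArg Subtype.val hp1, fun h => hp2 (Subtype.ext h), ?_⟩
        intro x hx hx1 hx2 hx3
        obtain ⟨y, hy1, hy2, hy3, hy4⟩ := hp3 ⟨x, by
          change x ∈ T.gN C C (k - k)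
          rwa [sub_self]⟩ (Subtype.ext hx1) (Subtype.ext hx2) (fun h => hx3 (congrArg Subtype.val h))
        exact ⟨y.1, (le_of_eq ek) y.2, congrArg Subtype.val hy1, congrArg Subtype.val hy2, congrArg Subtype.val hy3,
          congrArg Subtype.val hy4⟩
      have main : ∀ Z : 𝒱, Module.finrank ℚ (FixC p (⟨Z, 0⟩ : TraceTheory.Tw T.toTraceTheory)) = T.D p.1 Z (0 - k) := by
        intro Z
        unfold TraceTheory.D
        refine LinearEquiv.finrank_eq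
          { toFun := fun h => ⟨h.1.1, (T.mem_FixN).2 ⟨h.1.2, congrArg Subtype.val h.2⟩⟩
            map_add' := fun h h' => rfl
            map_smul' := fun r h => rfl
            invFun := fun h => ⟨⟨h.1, ((T.mem_FixN).1 h.2).1⟩, Subtype.ext ((T.mem_FixN).1 h.2).2⟩
            left_inv := fun h => rfl
            right_inv := fun h => rfl }
      rw [main X, main Y]
      exact cnt T m X Y hd hd2 hiso huv C hC' p.1 hdiv _)
  obtain ⟨a, ha, ha'⟩ := U.2
  obtain ⟨b, hb, hb'⟩ := U'.2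
  have e1 : T.nc (T.cl a) (T.cl b) = T.one X := by
    rw [ha', hb']
    exact congrArg Subtype.val h1
  have e2 : T.nc (T.cl b) (T.cl a) = T.one Y := by
    rw [ha', hb']
    exact congrArg Subtype.val h2
  refine ⟨a, ha, b, hb, ?_, ?_⟩
  · rw [← T.cl_eq, ← T.nc_cl, e1]
    rfl
  · rw [← T.cl_eq, ← T.nc_cl, e2]
    rfl

end Pool.Agent.L0h3.OE
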