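import Pool.Agent.L0h14.OE.Stm
import Pool.Agent.L0h14.OR.Num

/-!
# Modules VIATW and Z0
-/

universe u v

open CategoryTheory

set_option autoImplicit false

namespace Pool.Agent.L0h3.OE

open Pool.Agent.N174.OC Pool.Agent.L0h14.ORN Pool.Agent.Y107 Pool.Agent.L0h14.OE

theorem t_ViaTw : S_ViaTw.{u, v} := by
  intro 𝒱 _ _ _ T X Y f hf hvia
  -- the class of the component of degree zero
  let Φ : (X ⟶ Y) →ₗ[ℚ] ((⟨X, 0⟩ : TraceTheory.Tw T) ⟶ (⟨Y, 0⟩ : TraceTheory.Tw T)) :=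
    { toFun := fun f => ⟨T.cl (cmp (T.isInternal X Y) 0 f), cmp (T.isInternal X Y) 0 f, cmp_mem _ 0 f, rfl⟩
      map_add' := fun f g => Subtype.ext (by
        change T.cl (cmp (T.isInternal X Y) 0 (f + g)) = T.cl (cmp (T.isInternal X Y) 0 f) + T.cl (cmp (T.isInternal X Y) 0 g)
        rw [map_add, map_add])
      map_smul' := fun r f => Subtype.ext (by
        change T.cl (cmp (T.isInternal X Y) 0 (r • f)) = r • T.cl (cmp (T.isInternal X Y) 0 f)
        rw [map_smul, map_smul]) }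
  have hΦ : (show (⟨X, 0⟩ : TraceTheory.Tw T) ⟶ ⟨Y, 0⟩ from ⟨T.cl f, f, hf, rfl⟩) = Φ f := by
    refine Subtype.ext ?_
    change T.cl f = T.cl (cmp (T.isInternal X Y) 0 f)
    rw [cmp_of_mem _ hf]
  rw [hΦ]
  refine span_map_le Φ ?_ hvia
  rintro x ⟨Z, a, b, hZ, rfl⟩
  refine Submodule.iSup_induction (T.gr X Z)
    (motive := fun a => Φ (a ≫ b) ∈ Via (fun U : TraceTheory.Tw T => T.dim U.V ≤ 1) (⟨X, 0⟩ : TraceTheory.Tw T) ⟨Y, 0⟩)
    (hom_mem T.toChowTheory a) (fun i a ha => ?_) ?_ (fun a a' e1 e2 => ?_)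
  · refine Submodule.iSup_induction (T.gr Z Y)
      (motive := fun b => Φ (a ≫ b) ∈ Via (fun U : TraceTheory.Tw T => T.dim U.V ≤ 1) (⟨X, 0⟩ : TraceTheory.Tw T) ⟨Y, 0⟩)
      (hom_mem T.toChowTheory b) (fun j b hb => ?_) ?_ (fun b b' e1 e2 => ?_)
    · have hab := T.comp_mem ha hb
      by_cases hij : i + j = 0
      · rw [hij] at hab
        have ha' : T.cl a ∈ T.gN X Z (i - 0) := ⟨a, by rw [sub_zero]; exact ha, rfl⟩
        have hb' : T.cl b ∈ T.gN Z Y (0 - i) := ⟨b, by rw [show (0 : ℤ) - i = j by omega]; exact hb, rfl⟩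
        refine Submodule.subset_span ⟨⟨Z, i⟩, ⟨T.cl a, ha'⟩, ⟨T.cl b, hb'⟩, hZ, Subtype.ext ?_⟩
        change T.cl (cmp (T.isInternal X Y) 0 (a ≫ b)) = T.nc (T.cl a) (T.cl b)
        rw [cmp_of_mem _ hab, T.nc_cl]
      · have : Φ (a ≫ b) = 0 := by
          refine Subtype.ext ?_
          change T.cl (cmp (T.isInternal X Y) 0 (a ≫ b)) = 0
          rw [cmp_of_ne _ hab hij, map_zero]
        rw [this]
        exact zero_mem _
    · rw [Limits.comp_zero, map_zero]
      exact zero_mem _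
    · rw [Preadditive.comp_add, map_add]
      exact add_mem e1 e2
  · rw [Limits.zero_comp, map_zero]
    exact zero_mem _
  · rw [Preadditive.add_comp, map_add]
    exact add_mem e1 e2

/-- an element is the sum of its components -/
lemma cmp_sum {V : Type*} [AddCommGroup V] [Module ℚ V] {M : ℤ → Submodule ℚ V} (hM : DirectSum.IsInternal M) (x : V) :
    ∃ s : Finset ℤ, x = ∑ i ∈ s, cmp hM i x := by
  classical
  let _ := hM.chooseDecomposition
  refine ⟨DFinsupp.support (DirectSum.decompose M x), ?_⟩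
  have h := DirectSum.sum_support_decompose M x
  conv_lhs => rw [← h]
  refine Finset.sum_congr rfl fun i _ => ?_
  unfold Pool.Agent.Y107.cmp
  simp only [LinearMap.comp_apply, Submodule.subtype_apply]
  rfl

lemma cmp_ind {V W : Type*} [AddCommGroup V] [Module ℚ V] [AddCommGroup W] [Module ℚ W] {M : ℤ → Submodule ℚ V}
    (hM : DirectSum.IsInternal M) (φ : V →ₗ[ℚ] W) (Q : Submodule ℚ W) (x : V) (h : ∀ i, φ (cmp hM i x) ∈ Q) : φ x ∈ Q := by
  obtain ⟨s, hs⟩ := cmp_sum hM x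
  rw [hs, map_sum]
  exact Submodule.sum_mem _ fun i _ => h i

theorem t_Z0 : S_Z0.{u, v} := by
  intro 𝒱 _ _ _ T X Y v w hd hn hvw hv hw
  -- the components of negative degree come from curves
  have supp : ∀ (A B : 𝒱) (i : ℤ), T.dim A = T.dim B → T.dim A ≤ 4 → i < 0 →
      T.Supp i A B ≤ Via (fun Z => T.dim Z ≤ 1) A B := by
    intro A B i hAB hA hi
    refine Submodule.span_le.2 ?_
    rintro x ⟨D, D', a, z, b, hD, hD', -, hz, -, rfl⟩
    refine via_left a (via_right ?_ b)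
    refine small_codim T.toChowTheory (fun Z hZ => hZ) D D' ?_ hz
    omega
  have nv : ∀ i : ℤ, i < 0 → cmp (T.isInternal X Y) i v ∈ Via (fun Z => T.dim Z ≤ 1) X Y := by
    intro i hi
    have h := hv i hi
    exact (sup_le le_rfl (supp X Y i hd hn hi)) h
  have nw : ∀ i : ℤ, i < 0 → cmp (T.isInternal Y X) i w ∈ Via (fun Z => T.dim Z ≤ 1) Y X := by
    intro i hi
    have h := hw i hi
    exact (sup_le le_rfl (supp Y X i hd.symm (by omega) hi)) h
  have key : ∀ i j : ℤ, cmp (T.isInternal X X) 0 (cmp (T.isInternal X Y) i v ≫ cmp (T.isInternal Y X) j w) -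
      cmp (T.isInternal X Y) 0 (cmp (T.isInternal X Y) i v) ≫ cmp (T.isInternal Y X) 0 (cmp (T.isInternal Y X) j w) ∈
        Via (fun Z => T.dim Z ≤ 1) X X := by
    intro i j
    have mv := cmp_mem (T.isInternal X Y) i v
    have mw := cmp_mem (T.isInternal Y X) j w
    have hvw' := T.comp_mem mv mw
    by_cases hij : i + j = 0
    · rw [hij] at hvw'
      rw [cmp_of_mem _ hvw']
      by_cases hi : i = 0
      · subst hi
        have hj : j = 0 := by omega
        subst hj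
        rw [cmp_of_mem _ mv, cmp_of_mem _ mw, sub_self]
        exact zero_mem _
      · rw [cmp_of_ne _ mv hi, Limits.zero_comp, sub_zero]
        rcases lt_or_gt_of_ne hi with h | h
        · exact via_right (nv i h) _
        · exact via_left _ (nw j (by omega))
    · rw [cmp_of_ne _ hvw' hij]
      by_cases hi : i = 0
      · have hj : j ≠ 0 := by omega
        rw [cmp_of_ne _ mw hj, Limits.comp_zero, sub_zero]
        exact zero_mem _
      · rw [cmp_of_ne _ mv hi, Limits.zero_comp, sub_zero]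
        exact zero_mem _
  have step1 : ∀ i : ℤ, cmp (T.isInternal X X) 0 (cmp (T.isInternal X Y) i v ≫ w) -
      cmp (T.isInternal X Y) 0 (cmp (T.isInternal X Y) i v) ≫ cmp (T.isInternal Y X) 0 w ∈
        Via (fun Z => T.dim Z ≤ 1) X X := by
    intro i
    let φ : (Y ⟶ X) →ₗ[ℚ] (X ⟶ X) := (cmp (T.isInternal X X) 0) ∘ₗ Pool.Agent.L0h14.ORN.lc (cmp (T.isInternal X Y) i v) -
      Pool.Agent.L0h14.ORN.lc (cmp (T.isInternal X Y) 0 (cmp (T.isInternal X Y) i v)) ∘ₗ cmp (T.isInternal Y X) 0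
    exact cmp_ind (T.isInternal Y X) φ _ w fun j => key i j
  have step2 : cmp (T.isInternal X X) 0 (v ≫ w) -
      cmp (T.isInternal X Y) 0 v ≫ cmp (T.isInternal Y X) 0 w ∈
        Via (fun Z => T.dim Z ≤ 1) X X := by
    let φ : (X ⟶ Y) →ₗ[ℚ] (X ⟶ X) := (cmp (T.isInternal X X) 0) ∘ₗ Pool.Agent.L0h14.ORN.rc w -
      Pool.Agent.L0h14.ORN.rc (cmp (T.isInternal Y X) 0 w) ∘ₗ cmp (T.isInternal X Y) 0
    exact cmp_ind (T.isInternal X Y) φ _ v fun j => step1 j
  rw [hvw, cmp_of_mem _ (T.id_mem X)] at step2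
  have := neg_mem step2
  rwa [neg_sub] at this

end Pool.Agent.L0h3.OE
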